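import Pool.Agent.Work.MP_6f9fbb_ag.Final

namespace Pool.Agent.Results.MP_6f9fbb_ag.EOConstant

open Pool.Agent.Work.MP_6f9fbb_ag

/-- Two Artin-Schreier curves `y ^ p - y = f`, `y ^ p - y = f'` with the same pole orders, all
dividing `p - 1`, have isomorphic mod `p` Dieudonne modules (first de Rham cohomology with `F`
and `V`) and the same final type. -/
theorem result (p : ℕ) [Fact p.Prime] (k : Type*) [Field k] [IsAlgClosed k] [CharP k p]
    (K K' : Type*) [Field K] [Field K'] [Algebra k K] [Algebra k K']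
    [Algebra (RatFunc k) K] [Algebra (RatFunc k) K']
    [IsScalarTower k (RatFunc k) K] [IsScalarTower k (RatFunc k) K']
    (f f' : RatFunc k) (y : K) (y' : K')
    (hy : IsArtinSchreier p f y) (hy' : IsArtinSchreier p f' y')
    (hf : ∀ a : k, f ≠ RatFunc.C a)
    (hff : poleOrders f = poleOrders f')
    (hd : ∀ d ∈ poleOrders f, d ∣ p - 1)
    (x : K) (hx : x = algebraMap (RatFunc k) K RatFunc.X)
    (x' : K') (hx' : x' = algebraMap (RatFunc k) K' RatFunc.X) :
    Module.Finite k (HdR k x) ∧
    Module.finrank k (HdR k x) = (((poleOrders f).map (· + 1)).sum - 2) * (p - 1) ∧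
    Nonempty (Dieudonne k p x) ∧ Nonempty (Dieudonne k p x') ∧
    ∀ (D : Dieudonne k p x) (D' : Dieudonne k p x'),
      FVIso D.F D.V D'.F D'.V ∧ finalType D.F D.V = finalType D'.F D'.V :=
  main' K K' f f' y y' hy hy' hf hff hd x hx x' hx'

end Pool.Agent.Results.MP_6f9fbb_ag.EOConstant
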